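import Pool.Agent.W114.PQ.Stm
import Pool.Agent.H951R4.OD.M

/-! # Project PQ: C1, one large exact prime divisor and some small ones -/

set_option autoImplicit false

namespace Pool.Agent.W308.PQ

open Finset Filter Topology
open Pool.Agent.H951R4.OD (ch PI Ex mert_le PI_zero)
open Pool.Agent.W114.PQ

/-- Rankin's trick for sets with fewer than `k` elements -/
theorem rankin (P : Finset ℕ) (f : ℕ → ℝ) (hf : ∀ p, 0 ≤ f p) (k : ℕ)
    (Q : Finset (Finset ℕ)) (hQ : ∀ ps ∈ Q, ps ⊆ P ∧ ps.card < k) :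
    ∑ ps ∈ Q, ∏ p ∈ ps, f p ≤ 16 ^ k * Real.exp ((∑ p ∈ P, f p) / 16) := by
  have h1 : ∀ ps ∈ Q, ∏ p ∈ ps, f p ≤ 16 ^ k * ∏ p ∈ ps, (f p / 16) := by
    intro ps hps
    have e1 : ∏ p ∈ ps, f p = 16 ^ ps.card * ∏ p ∈ ps, (f p / 16) := by
      rw [← Finset.prod_const, ← Finset.prod_mul_distrib]
      exact Finset.prod_congr rfl fun p _ => by ring
    rw [e1]
    apply mul_le_mul_of_nonneg_right
    · exact pow_le_pow_right₀ (by norm_num) (hQ ps hps).2.le
    · exact Finset.prod_nonneg fun p _ => div_nonneg (hf p) (by norm_num)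
  calc ∑ ps ∈ Q, ∏ p ∈ ps, f p ≤ ∑ ps ∈ Q, 16 ^ k * ∏ p ∈ ps, (f p / 16) :=
        Finset.sum_le_sum h1
    _ ≤ ∑ ps ∈ P.powerset, 16 ^ k * ∏ p ∈ ps, (f p / 16) := by
        refine Finset.sum_le_sum_of_subset_of_nonneg ?_ fun ps _ _ => ?_
        · intro ps hps
          exact Finset.mem_powerset.mpr (hQ ps hps).1
        · exact mul_nonneg (by positivity)
            (Finset.prod_nonneg fun p _ => div_nonneg (hf p) (by norm_num))
    _ = 16 ^ k * ∏ p ∈ P, (1 + f p / 16) := by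
        rw [← Finset.mul_sum, Finset.prod_one_add]
    _ ≤ 16 ^ k * Real.exp ((∑ p ∈ P, f p) / 16) := by
        apply mul_le_mul_of_nonneg_left _ (by positivity)
        rw [Finset.sum_div, Real.exp_sum]
        refine Finset.prod_le_prod (fun p _ => ?_) fun p _ => ?_
        · have := div_nonneg (hf p) (by norm_num : (0:ℝ) ≤ 16)
          linarith
        · have := Real.add_one_le_exp (f p / 16)
          linarith

theorem omega_le {g : ℕ} (hg : 1 ≤ g) {y : ℝ} (h : (g : ℝ) ≤ Real.exp (6 * y)) :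
    (g.primeFactors.card : ℝ) ≤ 9 * y := by
  have h1 : 2 ^ g.primeFactors.card ≤ ∏ p ∈ g.primeFactors, p := by
    rw [← Finset.prod_const]
    exact Finset.prod_le_prod (fun p _ => by norm_num)
      fun p hp => (Nat.prime_of_mem_primeFactors hp).two_le
  have h2 : ∏ p ∈ g.primeFactors, p ≤ g := Nat.le_of_dvd hg (Nat.prod_primeFactors_dvd g)
  have h3 : ((2 : ℝ)) ^ g.primeFactors.card ≤ Real.exp (6 * y) :=
    le_trans (by exact_mod_cast h1.trans h2) h
  have h4 := Real.log_le_log (by positivity) h3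
  rw [Real.log_pow, Real.log_exp] at h4
  have h5 := Real.log_two_gt_d9
  have h6 : (0 : ℝ) ≤ g.primeFactors.card := Nat.cast_nonneg _
  nlinarith

theorem omega_mul {g : ℕ} (hg : 1 ≤ g) {ps : Finset ℕ} (hps : ∀ p ∈ ps, p.Prime) :
    (g * ∏ p ∈ ps, p).primeFactors.card ≤ g.primeFactors.card + ps.card := by
  have h0 : ∏ p ∈ ps, p ≠ 0 := Finset.prod_ne_zero_iff.mpr fun p hp => (hps p hp).ne_zero
  rw [Nat.primeFactors_mul (by omega) h0, Nat.primeFactors_prod hps]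
  exact Finset.card_union_le _ _

open scoped Classical in
/-- the decomposition of `n` -/
theorem decomp (gd : S_GD) {c0 w n : ℕ} (hn : 1 ≤ n) {r : ℕ} (hr : w < r) (hE : Ex c0 n r)
    (hu : ∀ r' : ℕ, w < r' → Ex c0 n r' → r' = r) :
    ∃ g : ℕ, 1 ≤ g ∧ (∀ p : ℕ, ¬ Ex c0 g p) ∧ n = (g * ∏ p ∈ EP c0 w n, p) * r ∧
      (∀ t ∈ EP c0 w n, Ex c0 (g * ∏ p ∈ EP c0 w n, p) t) := by
  obtain ⟨g, hg, hng, hex, _⟩ := gd c0 n hn
  have hmem : ∀ (u p : ℕ), p ∈ EP c0 u n ↔ (1 ≤ p ∧ p ≤ u) ∧ Ex c0 n p := by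
    intro u p
    rw [EP, Finset.mem_filter, Finset.mem_Icc]
  have hrn : r ≤ n := Nat.le_of_dvd hn hE.2.2.1
  have hr1 : 1 ≤ r := hE.1.one_lt.le
  have hset : EP c0 n n = insert r (EP c0 w n) := by
    ext p
    rw [Finset.mem_insert, hmem, hmem]
    constructor
    · rintro ⟨⟨h1, h2⟩, h3⟩
      rcases Nat.lt_or_ge w p with h | h
      · exact Or.inl (hu p h h3)
      · exact Or.inr ⟨⟨h1, h⟩, h3⟩
    · rintro (rfl | ⟨⟨h1, h2⟩, h3⟩)
      · exact ⟨⟨hr1, hrn⟩, hE⟩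
      · exact ⟨⟨h1, h2.trans (hr.le.trans hrn)⟩, h3⟩
  have hnot : r ∉ EP c0 w n := by
    intro h
    have := ((hmem w r).mp h).1.2
    omega
  have hn2 : n = (g * ∏ p ∈ EP c0 w n, p) * r := by
    rw [hset, Finset.prod_insert hnot] at hng
    rw [mul_assoc, mul_comm (∏ p ∈ EP c0 w n, p) r]
    exact hng
  refine ⟨g, hg, hex, hn2, ?_⟩
  intro t ht
  have ht' := (hmem w t).mp ht
  obtain ⟨ht1, ht2⟩ := ht'
  refine ⟨ht2.1, ht2.2.1, ?_, ?_⟩
  · exact Dvd.dvd.mul_left (Finset.dvd_prod_of_mem _ ht) _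
  · intro h
    apply ht2.2.2.2
    rw [hn2]
    exact Dvd.dvd.mul_right h _

open scoped Classical in
/-- the counting bound -/
theorem count_bound (gd : S_GD) (D : Dat) (k w X : ℕ) (G : ℝ) (Cc W κ : ℝ)
    (hCC : ∀ a t : ℕ, 1 ≤ a → a ^ 4 ≤ X → t ≤ w → Ex D.c0 a t →
      ({p : ℕ | p.Prime ∧ t < p ∧ p ≤ X / a ∧ Pass D (a * p)}.ncard : ℝ) ≤
        Cc * (1 + (a.primeFactors.card : ℝ)) ^ κ * (X / a) * W)
    (ha : ∀ (g : ℕ) (ps : Finset ℕ), 1 ≤ g → (g : ℝ) ≤ G → (∀ p ∈ ps, p.Prime ∧ p ≤ w) →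
      ps.card < k → (g * ∏ p ∈ ps, p) ^ 4 ≤ X) :
    ∃ (S1 S2 : Finset ℕ) (Q : Finset (Finset ℕ)) (I : Finset (ℕ × Finset ℕ)),
      (∀ g ∈ S1, G ≤ g ∧ ∀ p : ℕ, ¬ Ex D.c0 g p) ∧
      (∀ g ∈ S2, (1 : ℝ) ≤ g ∧ ∀ p : ℕ, ¬ Ex D.c0 g p) ∧
      (∀ g ∈ S2, (g : ℝ) ≤ G) ∧
      (∀ ps ∈ Q, ps ⊆ PI 0 w ∧ ps.card < k) ∧
      I ⊆ S2 ×ˢ Q ∧
      ({n : ℕ | 1 ≤ n ∧ n ≤ X ∧ Pass D n ∧ (EP D.c0 w n).card < k ∧
        (EP D.c0 w n).Nonempty ∧
        ∃ r : ℕ, w < r ∧ Ex D.c0 n r ∧ ∀ r' : ℕ, w < r' → Ex D.c0 n r' → r' = r}.ncard : ℝ) ≤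
      ∑ g ∈ S1, (X : ℝ) / g + ∑ i ∈ I, Cc *
        (1 + ((i.1 * ∏ p ∈ i.2, p).primeFactors.card : ℝ)) ^ κ *
          (X / ((i.1 * ∏ p ∈ i.2, p : ℕ) : ℝ)) * W := by
  set S0 : Finset ℕ := (Icc 1 X).filter (fun g => ∀ p, ¬ Ex D.c0 g p) with hS0
  set S1 : Finset ℕ := S0.filter (fun g => G < (g : ℝ)) with hS1
  set S2 : Finset ℕ := S0.filter (fun g => (g : ℝ) ≤ G) with hS2
  set Q : Finset (Finset ℕ) := (PI 0 w).powerset.filter (fun ps => ps.card < k ∧ ps.Nonempty)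
    with hQ
  set I : Finset (ℕ × Finset ℕ) := (S2 ×ˢ Q).filter
    (fun i => ∀ t ∈ i.2, Ex D.c0 (i.1 * ∏ p ∈ i.2, p) t) with hI
  have hQm : ∀ ps ∈ Q, ps ⊆ PI 0 w ∧ ps.card < k ∧ ps.Nonempty := by
    intro ps hps
    rw [hQ, Finset.mem_filter, Finset.mem_powerset] at hps
    exact ⟨hps.1, hps.2.1, hps.2.2⟩
  have hPI : ∀ p, p ∈ PI 0 w ↔ p.Prime ∧ p ≤ w := by
    intro p
    rw [PI, Finset.mem_filter, Finset.mem_Ioc]
    exact ⟨fun h => ⟨h.2, h.1.2⟩, fun h => ⟨⟨h.1.pos, h.2⟩, h.1⟩⟩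
  refine ⟨S1, S2, Q, I, ?_, ?_, ?_, fun ps hps => ⟨(hQm ps hps).1, (hQm ps hps).2.1⟩,
    Finset.filter_subset _ _, ?_⟩
  · intro g hg
    rw [hS1, Finset.mem_filter, hS0, Finset.mem_filter] at hg
    exact ⟨hg.2.le, hg.1.2⟩
  · intro g hg
    rw [hS2, Finset.mem_filter, hS0, Finset.mem_filter, Finset.mem_Icc] at hg
    exact ⟨by exact_mod_cast hg.1.1.1, hg.1.2⟩
  · intro g hg
    rw [hS2, Finset.mem_filter] at hg
    exact hg.2
  -- a choice of an element
  let tt : Finset ℕ → ℕ := fun ps => if h : ps.Nonempty then h.choose else 0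
  have htt : ∀ ps : Finset ℕ, ps.Nonempty → tt ps ∈ ps := by
    intro ps h
    simp only [tt, dif_pos h]
    exact h.choose_spec
  let F : ℕ × Finset ℕ → Set ℕ := fun i =>
    {p : ℕ | p.Prime ∧ tt i.2 < p ∧ p ≤ X / (i.1 * ∏ p ∈ i.2, p) ∧
      Pass D ((i.1 * ∏ p ∈ i.2, p) * p)}
  have hF : ∀ i, (F i).Finite := fun i =>
    (Set.finite_Iic (X / (i.1 * ∏ p ∈ i.2, p))).subset fun p hp => hp.2.2.1
  let U1 : Finset ℕ := S1.biUnion fun g => (Ioc 0 X).filter (g ∣ ·)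
  let U2 : Finset ℕ := I.biUnion fun i =>
    (hF i).toFinset.image fun p => (i.1 * ∏ p ∈ i.2, p) * p
  have hsub : {n : ℕ | 1 ≤ n ∧ n ≤ X ∧ Pass D n ∧ (EP D.c0 w n).card < k ∧
        (EP D.c0 w n).Nonempty ∧
        ∃ r : ℕ, w < r ∧ Ex D.c0 n r ∧ ∀ r' : ℕ, w < r' → Ex D.c0 n r' → r' = r} ⊆
      ((U1 ∪ U2 : Finset ℕ) : Set ℕ) := by
    rintro n ⟨hn1, hnX, hpass, hcard, hne, r, hr, hE, hu⟩
    obtain ⟨g, hg, hex, hn, hEx⟩ := decomp gd hn1 hr hE hu
    have hgX : g ≤ X := by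
      have : g ∣ n := by
        rw [hn, mul_assoc]
        exact Dvd.intro _ rfl
      exact (Nat.le_of_dvd hn1 this).trans hnX
    have hgS0 : g ∈ S0 := by
      rw [hS0, Finset.mem_filter, Finset.mem_Icc]
      exact ⟨⟨hg, hgX⟩, hex⟩
    rw [Finset.coe_union, Set.mem_union]
    rcases lt_or_ge G (g : ℝ) with hG | hG
    · left
      rw [Finset.mem_coe, Finset.mem_biUnion]
      refine ⟨g, ?_, ?_⟩
      · rw [hS1, Finset.mem_filter]
        exact ⟨hgS0, hG⟩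
      · rw [Finset.mem_filter, Finset.mem_Ioc]
        refine ⟨⟨hn1, hnX⟩, ?_⟩
        rw [hn, mul_assoc]
        exact Dvd.intro _ rfl
    · right
      set ps := EP D.c0 w n with hps
      have hpsm : ∀ p ∈ ps, p.Prime ∧ p ≤ w := by
        intro p hp
        rw [hps, EP, Finset.mem_filter, Finset.mem_Icc] at hp
        exact ⟨hp.2.1, hp.1.2⟩
      have ha1 : 1 ≤ g * ∏ p ∈ ps, p := by
        apply Nat.one_le_iff_ne_zero.mpr
        apply mul_ne_zero (by omega)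
        exact Finset.prod_ne_zero_iff.mpr fun p hp => (hpsm p hp).1.ne_zero
      have hgS2 : g ∈ S2 := Finset.mem_filter.mpr ⟨hgS0, hG⟩
      have hpsQ : ps ∈ Q := Finset.mem_filter.mpr
        ⟨Finset.mem_powerset.mpr fun p hp => (hPI p).mpr (hpsm p hp), hcard, hne⟩
      rw [Finset.mem_coe, Finset.mem_biUnion]
      refine ⟨(g, ps), Finset.mem_filter.mpr ⟨Finset.mem_product.mpr ⟨hgS2, hpsQ⟩, hEx⟩, ?_⟩
      · rw [Finset.mem_image]
        refine ⟨r, ?_, hn.symm⟩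
        rw [Set.Finite.mem_toFinset]
        refine ⟨hE.1, ?_, ?_, ?_⟩
        · exact lt_of_le_of_lt (hpsm _ (htt ps hne)).2 hr
        · rw [Nat.le_div_iff_mul_le ha1, mul_comm]
          rw [← hn]
          exact hnX
        · change Pass D ((g * ∏ p ∈ ps, p) * r)
          rw [← hn]
          exact hpass
  have h1 : ({n : ℕ | 1 ≤ n ∧ n ≤ X ∧ Pass D n ∧ (EP D.c0 w n).card < k ∧
        (EP D.c0 w n).Nonempty ∧
        ∃ r : ℕ, w < r ∧ Ex D.c0 n r ∧ ∀ r' : ℕ, w < r' → Ex D.c0 n r' → r' = r}.ncard : ℝ) ≤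
      ((U1 ∪ U2 : Finset ℕ).card : ℝ) := by
    have := Set.ncard_le_ncard hsub (Finset.finite_toSet _)
    rw [Set.ncard_coe_finset] at this
    exact_mod_cast this
  have h2 : ((U1 ∪ U2 : Finset ℕ).card : ℝ) ≤ (U1.card : ℝ) + (U2.card : ℝ) := by
    exact_mod_cast Finset.card_union_le _ _
  have h3 : (U1.card : ℝ) ≤ ∑ g ∈ S1, (X : ℝ) / g := by
    calc (U1.card : ℝ) ≤ ((∑ g ∈ S1, ((Ioc 0 X).filter (g ∣ ·)).card : ℕ) : ℝ) := by
          exact_mod_cast Finset.card_biUnion_le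
      _ = ∑ g ∈ S1, ((X / g : ℕ) : ℝ) := by
          rw [Nat.cast_sum]
          refine Finset.sum_congr rfl fun g _ => ?_
          rw [Nat.Ioc_filter_dvd_card_eq_div]
      _ ≤ ∑ g ∈ S1, (X : ℝ) / g := Finset.sum_le_sum fun g _ => Nat.cast_div_le
  have h4 : (U2.card : ℝ) ≤ ∑ i ∈ I, ((F i).ncard : ℝ) := by
    calc (U2.card : ℝ) ≤ ((∑ i ∈ I, ((hF i).toFinset.image
            fun p => (i.1 * ∏ p ∈ i.2, p) * p).card : ℕ) : ℝ) := by
          exact_mod_cast Finset.card_biUnion_le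
      _ ≤ ∑ i ∈ I, ((F i).ncard : ℝ) := by
          rw [Nat.cast_sum]
          refine Finset.sum_le_sum fun i _ => ?_
          rw [Set.ncard_eq_toFinset_card _ (hF i)]
          exact_mod_cast Finset.card_image_le
  have h5 : ∀ i ∈ I, ((F i).ncard : ℝ) ≤ Cc *
        (1 + ((i.1 * ∏ p ∈ i.2, p).primeFactors.card : ℝ)) ^ κ *
          (X / ((i.1 * ∏ p ∈ i.2, p : ℕ) : ℝ)) * W := by
    intro i hi
    rw [hI, Finset.mem_filter, Finset.mem_product] at hi
    obtain ⟨⟨hi1, hi2⟩, hi3⟩ := hi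
    obtain ⟨q1, q2, q3⟩ := hQm _ hi2
    rw [hS2, Finset.mem_filter, hS0, Finset.mem_filter, Finset.mem_Icc] at hi1
    have hpsm : ∀ p ∈ i.2, p.Prime ∧ p ≤ w := fun p hp => (hPI p).mp (q1 hp)
    have ha1 : 1 ≤ i.1 * ∏ p ∈ i.2, p := by
      apply Nat.one_le_iff_ne_zero.mpr
      apply mul_ne_zero (by omega)
      exact Finset.prod_ne_zero_iff.mpr fun p hp => (hpsm p hp).1.ne_zero
    exact hCC _ (tt i.2) ha1 (ha i.1 i.2 hi1.1.1.1 hi1.2 hpsm q2) (hpsm _ (htt _ q3)).2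
      (hi3 _ (htt _ q3))
  calc _ ≤ ((U1 ∪ U2 : Finset ℕ).card : ℝ) := h1
    _ ≤ (U1.card : ℝ) + (U2.card : ℝ) := h2
    _ ≤ _ := add_le_add h3 (h4.trans (Finset.sum_le_sum h5))

/-- elementary facts on the parameters, in terms of `y = log log X` -/
theorem params {C : ℝ} (hC : 1 ≤ C) (k : ℕ) : ∀ᶠ X : ℕ in atTop, ∃ (y : ℝ) (z : ℕ),
    y = Real.log (Real.log X) ∧ 1 ≤ y ∧ Real.log X = Real.exp y ∧
    (X : ℝ) = Real.exp (Real.exp y) ∧ 3 ≤ wX X ∧ wX X ≤ z ∧
    C * Real.log z * (1 + Real.log (Real.log z)) ≤ Real.log X ∧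
    (wX X : ℝ) ≤ Real.exp (Real.exp (3 / 4 * y)) ∧
    Real.exp y / (8 * C * y) ≤ Real.log z ∧
    Real.exp (24 * y + 4 * k * Real.exp (3 / 4 * y)) ≤ X := by
  have hC0 : 0 < C := lt_of_lt_of_le one_pos hC
  have hL : Tendsto (fun X : ℕ => Real.log X) atTop atTop :=
    Real.tendsto_log_atTop.comp tendsto_natCast_atTop_atTop
  have hy : Tendsto (fun X : ℕ => Real.log (Real.log X)) atTop atTop :=
    Real.tendsto_log_atTop.comp hL
  -- conditions on `y`
  have t1 : Tendsto (fun y : ℝ => y ^ (1 : ℝ) * Real.exp (-(1 / 4) * y)) atTop (𝓝 0) :=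
    tendsto_rpow_mul_exp_neg_mul_atTop_nhds_zero 1 (1 / 4) (by norm_num)
  have t2 : Tendsto (fun y : ℝ => y ^ (1 : ℝ) * Real.exp (-1 * y)) atTop (𝓝 0) :=
    tendsto_rpow_mul_exp_neg_mul_atTop_nhds_zero 1 1 (by norm_num)
  have t3 : Tendsto (fun y : ℝ => y ^ (0 : ℝ) * Real.exp (-(1 / 4) * y)) atTop (𝓝 0) :=
    tendsto_rpow_mul_exp_neg_mul_atTop_nhds_zero 0 (1 / 4) (by norm_num)
  have t4 : Tendsto (fun y : ℝ => 24 * (y ^ (1 : ℝ) * Real.exp (-1 * y)) +
      4 * k * (y ^ (0 : ℝ) * Real.exp (-(1 / 4) * y))) atTop (𝓝 0) := by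
    have := (t2.const_mul 24).add (t3.const_mul (4 * (k : ℝ)))
    simpa using this
  have c1 : ∀ᶠ y : ℝ in atTop, 4 * C * y ≤ Real.exp (1 / 4 * y) := by
    filter_upwards [t1.eventually (gt_mem_nhds (show (0 : ℝ) < 1 / (4 * C) by positivity))]
      with y h1
    rw [Real.rpow_one, neg_mul, Real.exp_neg, ← div_eq_mul_inv,
      div_lt_div_iff₀ (Real.exp_pos _) (by positivity)] at h1
    linarith
  have c2 : ∀ᶠ y : ℝ in atTop, 24 * y + 4 * k * Real.exp (3 / 4 * y) ≤ Real.exp y := by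
    filter_upwards [t4.eventually (gt_mem_nhds (show (0 : ℝ) < 1 by norm_num))] with y h1
    rw [Real.rpow_one, Real.rpow_zero, one_mul] at h1
    have e1 : Real.exp (3 / 4 * y) = Real.exp y * Real.exp (-(1 / 4) * y) := by
      rw [← Real.exp_add]
      congr 1
      ring
    have e2 : Real.exp y * Real.exp (-1 * y) = 1 := by
      rw [← Real.exp_add]
      simp
    have e3 : (24 * y + 4 * k * Real.exp (3 / 4 * y)) = Real.exp y *
        (24 * (y * Real.exp (-1 * y)) + 4 * k * Real.exp (-(1 / 4) * y)) := by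
      rw [e1]
      linear_combination (-24 * y) * e2
    rw [e3]
    calc _ ≤ Real.exp y * 1 := mul_le_mul_of_nonneg_left h1.le (Real.exp_pos _).le
      _ = Real.exp y := mul_one _
  filter_upwards [hy.eventually c1, hy.eventually c2, hy.eventually (eventually_ge_atTop 4),
    hL.eventually (eventually_gt_atTop 0), eventually_gt_atTop 0] with X e1 e2 e3 e4 e5
  set y : ℝ := Real.log (Real.log X) with hydef
  have hLy : Real.log X = Real.exp y := by
    rw [hydef, Real.exp_log e4]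
  have hX0 : (0 : ℝ) < X := by exact_mod_cast e5
  have hX : (X : ℝ) = Real.exp (Real.exp y) := by
    rw [← hLy, Real.exp_log hX0]
  have hy0 : 0 < y := by linarith
  have h34 : (Real.log X) ^ (3 / 4 : ℝ) = Real.exp (3 / 4 * y) := by
    rw [Real.rpow_def_of_pos e4, ← hydef]
    congr 1
    ring
  have hw : wX X = ⌊Real.exp (Real.exp (3 / 4 * y))⌋₊ := by
    rw [wX, h34]
  set Y : ℝ := Real.exp y / (4 * C * y) with hY
  have hY34 : Real.exp (3 / 4 * y) ≤ Y := by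
    rw [hY, le_div_iff₀ (by positivity)]
    calc Real.exp (3 / 4 * y) * (4 * C * y) ≤ Real.exp (3 / 4 * y) * Real.exp (1 / 4 * y) :=
          mul_le_mul_of_nonneg_left e1 (Real.exp_pos _).le
      _ = Real.exp y := by
          rw [← Real.exp_add]
          congr 1
          ring
  have h34' : (4 : ℝ) ≤ Real.exp (3 / 4 * y) := by
    have := Real.add_one_le_exp (3 / 4 * y)
    linarith
  have hY0 : 4 ≤ Y := h34'.trans hY34
  set z : ℕ := ⌊Real.exp Y⌋₊ with hz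
  have hz1 : (z : ℝ) ≤ Real.exp Y := Nat.floor_le (Real.exp_pos _).le
  have hz2 : Real.exp Y < z + 1 := Nat.lt_floor_add_one _
  have hwz : wX X ≤ z := by
    rw [hw, hz]
    exact Nat.floor_le_floor (Real.exp_le_exp.mpr hY34)
  have hw3 : 3 ≤ wX X := by
    rw [hw]
    apply Nat.le_floor
    have := Real.add_one_le_exp (Real.exp (3 / 4 * y))
    push_cast
    linarith
  have hz0 : (0 : ℝ) < z := by
    have : 3 ≤ z := hw3.trans hwz
    exact_mod_cast (by omega : 0 < z)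
  have hlz1 : Real.log z ≤ Y := by
    rw [Real.log_le_iff_le_exp hz0]
    exact hz1
  have hlz2 : Y / 2 ≤ Real.log z := by
    rw [Real.le_log_iff_exp_le hz0]
    have h1 : Real.exp Y = Real.exp (Y / 2) * Real.exp (Y / 2) := by
      rw [← Real.exp_add]
      congr 1
      ring
    have h2 := Real.add_one_le_exp (Y / 2)
    have h3 : Real.exp (Y / 2) * 2 ≤ Real.exp (Y / 2) * Real.exp (Y / 2) :=
      mul_le_mul_of_nonneg_left (by linarith) (Real.exp_pos _).le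
    nlinarith [Real.exp_pos (Y / 2)]
  have hlz0 : 0 < Real.log z := by linarith
  refine ⟨y, z, rfl, by linarith, hLy, hX, hw3, hwz, ?_, ?_, ?_, ?_⟩
  · have hYL : Y ≤ Real.exp y := by
      rw [hY]
      apply div_le_self (Real.exp_pos _).le
      nlinarith
    have h1 : Real.log (Real.log z) ≤ y := by
      rw [Real.log_le_iff_le_exp hlz0]
      exact hlz1.trans hYL
    calc C * Real.log z * (1 + Real.log (Real.log z)) ≤ C * Real.log z * (1 + y) :=
          mul_le_mul_of_nonneg_left (by linarith) (by positivity)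
      _ ≤ C * Y * (1 + y) := by
          apply mul_le_mul_of_nonneg_right _ (by linarith)
          exact mul_le_mul_of_nonneg_left hlz1 hC0.le
      _ = Real.exp y * ((1 + y) / (4 * y)) := by
          rw [hY]
          field_simp
      _ ≤ Real.exp y * 1 := by
          apply mul_le_mul_of_nonneg_left _ (Real.exp_pos _).le
          rw [div_le_one (by positivity)]
          linarith
      _ = Real.log X := by rw [mul_one, hLy]
  · rw [hw]
    exact Nat.floor_le (Real.exp_pos _).le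
  · have : Real.exp y / (8 * C * y) = Y / 2 := by
      rw [hY]
      field_simp
      norm_num
    rw [this]
    exact hlz2
  · rw [hX]
    exact Real.exp_le_exp.mpr e2

theorem c1 (cc : S_CC) (gs : S_GS) (gd : S_GD) : S_C1 := by
  intro D hD k
  obtain ⟨C, hC, hCC⟩ := cc D hD
  obtain ⟨Cg, hCg, hGS⟩ := gs D.c0 hD.c0_pos
  obtain ⟨Cm, hCm0, hCm⟩ := mert_le
  have hC0 : 0 < C := lt_of_lt_of_le one_pos hC
  have hCg0 : 0 < Cg := lt_of_lt_of_le one_pos hCg
  have hκ0 : (0 : ℝ) ≤ D.κ := le_trans zero_le_one hD.κ1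
  set K : ℝ := C * (10 + k) ^ D.κ * Cg * 16 ^ k * Real.exp (Cm / 16) * (8 * C) ^ (3 / 2 : ℝ)
    with hK
  have hK0 : 0 ≤ K := by positivity
  -- the majorant
  have hy : Tendsto (fun X : ℕ => Real.log (Real.log X)) atTop atTop :=
    Real.tendsto_log_atTop.comp (Real.tendsto_log_atTop.comp tendsto_natCast_atTop_atTop)
  have hmaj : Tendsto (fun X : ℕ => Cg * ((Real.log (Real.log X)) ^ (0 : ℝ) *
      Real.exp (-1 * Real.log (Real.log X))) + K * ((Real.log (Real.log X)) ^ (D.κ + 3 / 2 : ℝ) *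
      Real.exp (-(5 / 64) * Real.log (Real.log X)))) atTop (𝓝 0) := by
    have h1 := ((tendsto_rpow_mul_exp_neg_mul_atTop_nhds_zero 0 1 (by norm_num)).comp
      hy).const_mul Cg
    have h2 := ((tendsto_rpow_mul_exp_neg_mul_atTop_nhds_zero (D.κ + 3 / 2) (5 / 64)
      (by norm_num)).comp hy).const_mul K
    have h3 := h1.add h2
    rw [mul_zero, mul_zero, add_zero] at h3
    exact h3
  refine squeeze_zero' (Eventually.of_forall fun X => ?_) ?_ hmaj
  · exact div_nonneg (mul_nonneg (Nat.cast_nonneg _) (Real.log_natCast_nonneg _))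
      (Nat.cast_nonneg _)
  filter_upwards [params hC k, eventually_gt_atTop 0] with X ⟨y, z, hydef, hy1, hLy, hX, hw3, hwz,
    hcz, hwle, hzlow, hXbig⟩ hXpos
  rw [← hydef]
  have hX0 : (0 : ℝ) < X := by exact_mod_cast hXpos
  set w := wX X with hwdef
  have hw0 : (0 : ℝ) < w := by exact_mod_cast (by omega : 0 < w)
  have hw1 : (1 : ℝ) ≤ w := by exact_mod_cast (by omega : 1 ≤ w)
  have hy0 : 0 < y := by linarith
  set W : ℝ := (Real.log w) ^ (1 / 2 : ℝ) * (Real.log z) ^ (-(3 / 2) : ℝ) with hW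
  obtain ⟨S1, S2, Q, I, hS1, hS2, hS2', hQ, hI, hbd⟩ := count_bound gd D k w X
    (Real.exp (6 * y)) C W D.κ
    (fun a t ha1 ha4 ht hE => by
      have := hCC w z X a t hw3 hwz hcz ha1 ha4 ht hE
      rw [hW, ← mul_assoc]
      exact this)
    (fun g ps hg1 hgG hps hcard => by
      have h1 : ((∏ p ∈ ps, p : ℕ) : ℝ) ≤ Real.exp (k * Real.exp (3 / 4 * y)) := by
        have e1 : ((∏ p ∈ ps, p : ℕ) : ℝ) ≤ (w : ℝ) ^ ps.card := by
          rw [Nat.cast_prod, ← Finset.prod_const]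
          exact Finset.prod_le_prod (fun p _ => Nat.cast_nonneg _)
            fun p hp => by exact_mod_cast (hps p hp).2
        have e2 : (w : ℝ) ^ ps.card ≤ (w : ℝ) ^ k := pow_le_pow_right₀ hw1 hcard.le
        have e3 : (w : ℝ) ^ k ≤ (Real.exp (Real.exp (3 / 4 * y))) ^ k :=
          pow_le_pow_left₀ hw0.le hwle k
        rw [← Real.exp_nat_mul] at e3
        exact e1.trans (e2.trans e3)
      have h2 : ((g * ∏ p ∈ ps, p : ℕ) : ℝ) ≤
          Real.exp (6 * y) * Real.exp (k * Real.exp (3 / 4 * y)) := by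
        rw [Nat.cast_mul]
        exact mul_le_mul hgG h1 (Nat.cast_nonneg _) (Real.exp_pos _).le
      have h3 : (((g * ∏ p ∈ ps, p) ^ 4 : ℕ) : ℝ) ≤ X := by
        rw [Nat.cast_pow]
        refine (pow_le_pow_left₀ (Nat.cast_nonneg _) h2 4).trans ?_
        rw [← Real.exp_add, ← Real.exp_nat_mul]
        refine le_trans (Real.exp_le_exp.mpr (le_of_eq ?_)) hXbig
        push_cast
        ring
      exact_mod_cast h3)
  -- the first sum
  have hsum1 : ∑ g ∈ S1, (X : ℝ) / g ≤ X * (Cg * Real.exp (-2 * y)) := by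
    have h1 := hGS (Real.exp (6 * y)) S1 (Real.one_le_exp (by positivity)) hS1
    have h2 : ∑ g ∈ S1, (X : ℝ) / g = X * ∑ g ∈ S1, (1 : ℝ) / g := by
      rw [Finset.mul_sum]
      exact Finset.sum_congr rfl fun g _ => by ring
    rw [h2]
    apply mul_le_mul_of_nonneg_left _ hX0.le
    refine h1.trans (le_of_eq ?_)
    rw [← Real.exp_mul]
    congr 2
    ring
  -- the second sum
  have hW0 : 0 ≤ W := mul_nonneg (Real.rpow_nonneg (Real.log_nonneg hw1) _)
    (Real.rpow_nonneg (Real.log_natCast_nonneg _) _)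
  have hWle : W ≤ Real.exp (3 / 8 * y) * ((8 * C) ^ (3 / 2 : ℝ) * y ^ (3 / 2 : ℝ) *
      Real.exp (-(3 / 2) * y)) := by
    rw [hW]
    have h1 : Real.log w ≤ Real.exp (3 / 4 * y) := by
      rw [Real.log_le_iff_le_exp hw0]
      exact hwle
    have h2 : (Real.log w) ^ (1 / 2 : ℝ) ≤ Real.exp (3 / 8 * y) := by
      refine (Real.rpow_le_rpow (Real.log_nonneg hw1) h1 (by norm_num)).trans (le_of_eq ?_)
      rw [← Real.exp_mul]
      congr 1
      ring
    have h3 : (Real.log z) ^ (-(3 / 2) : ℝ) ≤ (8 * C) ^ (3 / 2 : ℝ) * y ^ (3 / 2 : ℝ) *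
        Real.exp (-(3 / 2) * y) := by
      have h4 : 0 < Real.exp y / (8 * C * y) := by positivity
      refine (Real.rpow_le_rpow_of_nonpos h4 hzlow (by norm_num)).trans (le_of_eq ?_)
      rw [Real.div_rpow (Real.exp_pos _).le (by positivity), ← Real.exp_mul,
        Real.rpow_neg (by positivity) (3 / 2), div_inv_eq_mul,
        Real.mul_rpow (by positivity) hy0.le]
      rw [show y * (-(3 / 2) : ℝ) = -(3 / 2) * y by ring]
      ring
    exact mul_le_mul h2 h3 (Real.rpow_nonneg (Real.log_natCast_nonneg _) _) (Real.exp_pos _).le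
  have hPI : ∀ p, p ∈ PI 0 w ↔ p.Prime ∧ p ≤ w := by
    intro p
    rw [PI, Finset.mem_filter, Finset.mem_Ioc]
    exact ⟨fun h => ⟨h.2, h.1.2⟩, fun h => ⟨⟨h.1.pos, h.2⟩, h.1⟩⟩
  have hsum2 : ∑ i ∈ I, C *
        (1 + ((i.1 * ∏ p ∈ i.2, p).primeFactors.card : ℝ)) ^ D.κ *
          (X / ((i.1 * ∏ p ∈ i.2, p : ℕ) : ℝ)) * W ≤
      X * (C * ((10 + k) ^ D.κ * y ^ D.κ) * (Cg * (16 ^ k *
        (Real.exp (Cm / 16) * Real.exp (3 / 64 * y)))) * W) := by
    have hterm : ∀ i ∈ I, C *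
        (1 + ((i.1 * ∏ p ∈ i.2, p).primeFactors.card : ℝ)) ^ D.κ *
          (X / ((i.1 * ∏ p ∈ i.2, p : ℕ) : ℝ)) * W ≤
        X * (C * ((10 + k) ^ D.κ * y ^ D.κ) * ((1 / (i.1 : ℝ)) * ∏ p ∈ i.2, (1 / (p : ℝ))) *
          W) := by
      intro i hi
      have hi' := Finset.mem_product.mp (hI hi)
      have hg := hS2 _ hi'.1
      have hg1 : 1 ≤ i.1 := by exact_mod_cast hg.1
      have hg2 := hS2' _ hi'.1
      have hps := hQ _ hi'.2
      have hpr : ∀ p ∈ i.2, p.Prime := fun p hp => ((hPI p).mp (hps.1 hp)).1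
      have h1 : (((i.1 * ∏ p ∈ i.2, p).primeFactors.card : ℕ) : ℝ) ≤ 9 * y + k := by
        have e1 := omega_mul hg1 hpr
        have e2 := omega_le hg1 hg2
        have e3 : (((i.1 * ∏ p ∈ i.2, p).primeFactors.card : ℕ) : ℝ) ≤
            (i.1.primeFactors.card : ℝ) + (i.2.card : ℝ) := by exact_mod_cast e1
        have e4 : (i.2.card : ℝ) ≤ k := by exact_mod_cast hps.2.le
        linarith
      have hk0 : (0 : ℝ) ≤ k := Nat.cast_nonneg _
      have h2 : (1 + ((i.1 * ∏ p ∈ i.2, p).primeFactors.card : ℝ)) ^ D.κ ≤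
          (10 + k) ^ D.κ * y ^ D.κ := by
        rw [← Real.mul_rpow (by positivity) hy0.le]
        apply Real.rpow_le_rpow (add_nonneg zero_le_one (Nat.cast_nonneg _)) _ hκ0
        nlinarith
      have h3 : (X : ℝ) / ((i.1 * ∏ p ∈ i.2, p : ℕ) : ℝ) =
          X * ((1 / (i.1 : ℝ)) * ∏ p ∈ i.2, (1 / (p : ℝ))) := by
        rw [Nat.cast_mul, Nat.cast_prod, Finset.prod_div_distrib, Finset.prod_const_one]
        rw [div_eq_mul_one_div, one_div_mul_one_div]
      rw [h3]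
      have h4 : 0 ≤ (X : ℝ) * ((1 / (i.1 : ℝ)) * ∏ p ∈ i.2, (1 / (p : ℝ))) := by
        apply mul_nonneg hX0.le
        exact mul_nonneg (by positivity) (Finset.prod_nonneg fun p _ => by positivity)
      calc C * (1 + ((i.1 * ∏ p ∈ i.2, p).primeFactors.card : ℝ)) ^ D.κ *
          (X * ((1 / (i.1 : ℝ)) * ∏ p ∈ i.2, (1 / (p : ℝ)))) * W ≤
          C * ((10 + k) ^ D.κ * y ^ D.κ) *
          (X * ((1 / (i.1 : ℝ)) * ∏ p ∈ i.2, (1 / (p : ℝ)))) * W := by
            apply mul_le_mul_of_nonneg_right _ hW0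
            apply mul_le_mul_of_nonneg_right _ h4
            exact mul_le_mul_of_nonneg_left h2 hC0.le
        _ = _ := by ring
    have hprod : ∑ i ∈ I, ((1 / (i.1 : ℝ)) * ∏ p ∈ i.2, (1 / (p : ℝ))) ≤
        Cg * (16 ^ k * (Real.exp (Cm / 16) * Real.exp (3 / 64 * y))) := by
      have h1 : ∑ i ∈ I, ((1 / (i.1 : ℝ)) * ∏ p ∈ i.2, (1 / (p : ℝ))) ≤
          ∑ i ∈ S2 ×ˢ Q, ((1 / (i.1 : ℝ)) * ∏ p ∈ i.2, (1 / (p : ℝ))) :=
        Finset.sum_le_sum_of_subset_of_nonneg hI fun i _ _ =>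
          mul_nonneg (by positivity) (Finset.prod_nonneg fun p _ => by positivity)
      have h2 : ∑ i ∈ S2 ×ˢ Q, ((1 / (i.1 : ℝ)) * ∏ p ∈ i.2, (1 / (p : ℝ))) =
          (∑ g ∈ S2, (1 : ℝ) / g) * ∑ ps ∈ Q, ∏ p ∈ ps, (1 / (p : ℝ)) := by
        rw [Finset.sum_mul_sum, Finset.sum_product]
      have h3 : ∑ g ∈ S2, (1 : ℝ) / g ≤ Cg := by
        have := hGS 1 S2 le_rfl hS2
        rw [Real.one_rpow, mul_one] at this
        exact this
      have h4 : ∑ ps ∈ Q, ∏ p ∈ ps, (1 / (p : ℝ)) ≤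
          16 ^ k * (Real.exp (Cm / 16) * Real.exp (3 / 64 * y)) := by
        refine (rankin (PI 0 w) (fun p => 1 / (p : ℝ)) (fun p => by positivity) k Q hQ).trans ?_
        apply mul_le_mul_of_nonneg_left _ (by positivity)
        rw [← Real.exp_add]
        apply Real.exp_le_exp.mpr
        have h5 := (abs_le.mp (hCm w hw3)).2
        have h6 : Real.log (Real.log w) ≤ 3 / 4 * y := by
          have hlw : 0 < Real.log w := Real.log_pos (by
            exact_mod_cast (by omega : 1 < w))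
          rw [Real.log_le_iff_le_exp hlw, Real.log_le_iff_le_exp hw0]
          exact hwle
        linarith
      rw [h2] at h1
      refine h1.trans (mul_le_mul h3 h4 ?_ hCg0.le)
      exact Finset.sum_nonneg fun ps _ => Finset.prod_nonneg fun p _ => by positivity
    refine (Finset.sum_le_sum hterm).trans ?_
    rw [← Finset.mul_sum, ← Finset.sum_mul, ← Finset.mul_sum]
    apply mul_le_mul_of_nonneg_left _ hX0.le
    apply mul_le_mul_of_nonneg_right _ hW0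
    apply mul_le_mul_of_nonneg_left hprod
    positivity
  have htot := hbd.trans (add_le_add hsum1 hsum2)
  rw [hLy, div_le_iff₀ hX0]
  refine (mul_le_mul_of_nonneg_right htot (Real.exp_pos y).le).trans ?_
  rw [← mul_add, mul_assoc, mul_comm _ (X : ℝ)]
  apply mul_le_mul_of_nonneg_left _ hX0.le
  rw [add_mul]
  apply add_le_add
  · rw [Real.rpow_zero, one_mul, mul_assoc, ← Real.exp_add]
    apply le_of_eq
    congr 2
    ring
  · calc C * ((10 + k) ^ D.κ * y ^ D.κ) * (Cg * (16 ^ k *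
        (Real.exp (Cm / 16) * Real.exp (3 / 64 * y)))) * W * Real.exp y ≤
        C * ((10 + k) ^ D.κ * y ^ D.κ) * (Cg * (16 ^ k *
        (Real.exp (Cm / 16) * Real.exp (3 / 64 * y)))) *
        (Real.exp (3 / 8 * y) * ((8 * C) ^ (3 / 2 : ℝ) * y ^ (3 / 2 : ℝ) *
          Real.exp (-(3 / 2) * y))) * Real.exp y := by
          apply mul_le_mul_of_nonneg_right _ (Real.exp_pos _).le
          apply mul_le_mul_of_nonneg_left hWle
          positivity
      _ = K * (y ^ D.κ * y ^ (3 / 2 : ℝ) * (Real.exp (3 / 64 * y) * Real.exp (3 / 8 * y) *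
          Real.exp (-(3 / 2) * y) * Real.exp y)) := by
          rw [hK]
          ring
      _ = K * (y ^ (D.κ + 3 / 2 : ℝ) * Real.exp (-(5 / 64) * y)) := by
          rw [Real.rpow_add hy0, ← Real.exp_add, ← Real.exp_add, ← Real.exp_add]
          congr 3
          ring

end Pool.Agent.W308.PQ
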